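import Mathlib
import Pool.Agent.R851.NashTop
import Pool.Agent.R851.NashFlat
import Pool.Agent.R851.NashGeo

/-!
# A semialgebraic set locally connected by analytic paths which is not an approximation target

`T = {(x, y, z) ∈ ℝ³ : z ≥ 0, z² = x⁴ + y⁴}`, the graph of `sqrt (x⁴ + y⁴)`, is locally connected by
analytic paths.  The homeomorphism `f : ℝ² → T`, `f(x, y) = (x, y, sqrt (x⁴ + y⁴))`, cannot be
approximated by Nash maps `ℝ² → T`.

The proof.  Let `g = (u, v, w)` be a Nash map from `ℝ²` to `T`, so `w² = u⁴ + v⁴`.  As the curve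
`w² = x⁴ + y⁴` has genus one, the real line spanned by `(u, v)` extends continuously to the
zeros of `(u, v)`: the Taylor series of `u`, `v`, `w` in the direction of the `x`-axis at a point
close to a zero, suitably rescaled, converge to polynomials `A`, `B`, `R` with `R² = A⁴ + B⁴`; by the
Mason-Stothers theorem `A` and `B` are proportional.  (The function `u` is not flat in the
direction of the `x`-axis because it satisfies a polynomial equation on every horizontal
line.)  So we get a continuous map from the plane to the real projective line; if `g` is close to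
`f`, it has degree `2` on the unit circle, which is impossible.
-/

set_option autoImplicit false

open Filter Topology MvPolynomial
open scoped ContDiff

namespace Pool.Agent.Results.MP_1c24b6_ag.QuarticConeNotTarget

open Pool.Agent.R851.NashDefs Pool.Agent.R851.Nash

/-- the point of `ℝ²` given by a complex number -/
def pt (z : ℂ) : Fin 2 → ℝ := ![z.re, z.im]

lemma contDiff_pt : ContDiff ℝ ∞ pt := by
  rw [contDiff_pi]
  intro i
  fin_cases i
  · exact Complex.reCLM.contDiff
  · exact Complex.imCLM.contDiff

/-- the ring homomorphism from polynomials in two variables to bivariate polynomials -/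
noncomputable def toBiv : MvPolynomial (Fin 2) ℝ →ₐ[ℝ] Polynomial (Polynomial ℝ) :=
  aeval ![Polynomial.C Polynomial.X, Polynomial.X]

lemma eval_toBiv (P : MvPolynomial (Fin 2) ℝ) (s t : ℝ) :
    ((toBiv P).eval (Polynomial.C t)).eval s = eval ![s, t] P := by
  induction P using MvPolynomial.induction_on with
  | C a =>
    have : toBiv (C a) = Polynomial.C (Polynomial.C a) := by
      unfold toBiv
      rw [aeval_C]
      rfl
    rw [this]
    simp
  | add p q hp hq => simp only [map_add, Polynomial.eval_add, hp, hq]
  | mul_X p i hp =>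
    rw [map_mul, Polynomial.eval_mul, Polynomial.eval_mul, hp, map_mul, eval_X]
    congr 1
    unfold toBiv
    rw [aeval_X]
    fin_cases i <;> simp

/-- A function of class `C^∞` on the plane with semialgebraic graph, flat in the direction of the
`x`-axis at some point, vanishes on the horizontal line through the point. -/
lemma zero_on_line {h : (Fin 2 → ℝ) → ℝ} (hh : ContDiff ℝ ∞ h)
    (hsa : IsSemialgebraicMap Set.univ (fun x => fun _ : Fin 1 => h x)) (z : ℂ)
    (hflat : ∀ n, (dx^[n] (fun z => h (pt z))) z = 0) (t : ℝ) : h ![t, z.im] = 0 := by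
  have hu : ContDiff ℝ ∞ (fun z => h (pt z)) := hh.comp contDiff_pt
  set φ : ℝ → ℝ := fun t => h ![t, z.im] with hφ
  -- the graph of `φ`
  have hgr : IsSemialgebraic {w : Fin 2 → ℝ | w 1 = φ (w 0)} := by
    have := IsSemialgebraic.preimage (n := 2) (k := 2 + 1) ![X 0, C z.im, X 1] hsa
    convert this using 1
    ext w
    simp only [graph, Set.mem_univ, true_and, Set.mem_ofPred_eq]
    have e1 : (fun i : Fin 2 => eval w ((![X 0, C z.im, X 1] : Fin 3 → MvPolynomial (Fin 2) ℝ)
        (Fin.castAdd 1 i))) = ![w 0, z.im] := by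
      funext i
      fin_cases i
      · change eval w (X 0) = w 0
        rw [eval_X]
      · change eval w (C z.im) = z.im
        rw [eval_C]
    rw [e1]
    constructor
    · intro hw
      funext j
      fin_cases j
      change eval w (X 1) = φ (w 0)
      rw [eval_X]; exact hw
    · intro hw
      have := congrFun hw 0
      change eval w (X 1) = φ (w 0) at this
      rwa [eval_X] at this
  obtain ⟨P, hP, hrel⟩ := exists_equation hgr
  have hline : ∀ s : ℝ, φ s = h (pt (z + ((s - z.re : ℝ) : ℂ))) := by
    intro s
    simp only [hφ, pt]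
    congr 1
    funext i
    fin_cases i <;> simp
  have hφs : ContDiff ℝ ∞ φ := by
    have e : φ = fun s : ℝ => h (pt (z + ((s - z.re : ℝ) : ℂ))) := funext hline
    rw [e]
    apply hu.comp
    exact contDiff_const.add (Complex.ofRealCLM.contDiff.comp (contDiff_id.sub contDiff_const))
  have hder : ∀ n, iteratedDeriv n φ z.re = 0 := by
    intro n
    have e : φ = fun s : ℝ => (fun t : ℝ => h (pt (z + t))) (s - z.re) := by
      funext s
      rw [hline s]
    have e2 := congrFun (iteratedDeriv_comp_sub_const n (fun t : ℝ => h (pt (z + t))) z.re) z.re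
    rw [e, e2]
    have h1 := iteratedDeriv_line hu z n (z.re - z.re)
    rw [h1, sub_self, Complex.ofReal_zero, add_zero]
    exact hflat n
  have hP' : toBiv P ≠ 0 := by
    intro h0
    apply hP
    apply MvPolynomial.funext
    intro x
    have h1 := eval_toBiv P (x 0) (x 1)
    rw [h0] at h1
    have h2 : (![x 0, x 1] : Fin 2 → ℝ) = x := by
      funext i; fin_cases i <;> rfl
    rw [h2] at h1
    rw [← h1]
    simp
  exact zero_of_flat hφs (toBiv P) hP' (fun t => by rw [eval_toBiv]; exact hrel t) hder t

/-- The semialgebraic set `quarticCone = {(x, y, z) ∈ ℝ³ : z ≥ 0, z² = x⁴ + y⁴}` is locally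
connected by analytic paths, and it is not an `(N, 0)`-approximation target space. -/
theorem result :
    quarticCone.Nonempty ∧ IsSemialgebraic quarticCone ∧
      LocallyConnectedByAnalyticPaths quarticCone ∧ ¬ IsNashTarget quarticCone := by
  refine ⟨⟨_, quarticMap_mem 0⟩, isSemialgebraic_quarticCone, locallyConnected_quarticCone, ?_⟩
  intro hT
  obtain ⟨g, ⟨hgT, hgN⟩, hgf⟩ := hT 2 Set.univ (by norm_num) ⟨0, trivial⟩ isSemialgebraic_univ
    (isOpen_univ.locallyCompactSpace) quarticMap contSemialgebraic_quarticMap
    (fun _ => 1 / 5) (positiveSemialgebraic_const (by norm_num))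
  -- the components
  have hcomp : ∀ i, ContDiff ℝ ∞ (fun x => g x i) ∧
      IsSemialgebraicMap Set.univ (fun x => fun _ : Fin 1 => g x i) := by
    intro i
    obtain ⟨Ω, h, hΩ, ⟨-, -, hsm, hsa⟩, heq⟩ := hgN i
    have hΩu : Ω = Set.univ := Set.univ_subset_iff.1 hΩ
    subst hΩu
    have e : h = fun x => g x i := funext fun x => (heq x trivial).symm
    subst e
    exact ⟨contDiffOn_univ.1 hsm, hsa⟩
  have hdist : ∀ x : Fin 2 → ℝ, (g x 0 - x 0) ^ 2 + (g x 1 - x 1) ^ 2 < (1 / 5) ^ 2 := by
    intro x
    have h1 := hgf x trivial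
    have h2 : ∑ i, (g x i - quarticMap x i) ^ 2 < (1 / 5) ^ 2 := by
      rwa [Real.sqrt_lt' (by norm_num)] at h1
    rw [Fin.sum_univ_three] at h2
    have h3 : quarticMap x 0 = x 0 := rfl
    have h4 : quarticMap x 1 = x 1 := rfl
    rw [h3, h4] at h2
    have := sq_nonneg (g x 2 - quarticMap x 2)
    linarith
  refine no_smooth_root (u := fun z => g (pt z) 0) (v := fun z => g (pt z) 1)
    (w := fun z => g (pt z) 2) ((hcomp 0).1.comp contDiff_pt) ((hcomp 1).1.comp contDiff_pt)
    ((hcomp 2).1.comp contDiff_pt) (fun z => (hgT (pt z) trivial).2) ?_ ?_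
  · intro z
    by_contra hcon
    push Not at hcon
    have h1 := zero_on_line (hcomp 0).1 (hcomp 0).2 z hcon 1
    have h2 := hdist ![1, z.im]
    rw [h1] at h2
    change (0 - (1 : ℝ)) ^ 2 + _ < _ at h2
    have h3 := sq_nonneg (g ![1, z.im] 1 - z.im)
    norm_num at h2
    linarith
  · intro z _
    have h1 := hdist (pt z)
    have e1 : pt z 0 = z.re := rfl
    have e2 : pt z 1 = z.im := rfl
    rw [e1, e2] at h1
    have h2 : ‖((g (pt z) 0 : ℂ) + (g (pt z) 1 : ℂ) * Complex.I) - z‖ ^ 2 < (1 / 5) ^ 2 := by
      rw [← Complex.normSq_eq_norm_sq, Complex.normSq_apply]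
      simp only [Complex.sub_re, Complex.add_re, Complex.ofReal_re, Complex.mul_re, Complex.I_re,
        mul_zero, Complex.ofReal_im, Complex.I_im, mul_one, sub_self, add_zero, Complex.sub_im,
        Complex.add_im, Complex.mul_im, zero_add]
      nlinarith
    exact lt_of_pow_lt_pow_left₀ 2 (by norm_num) h2

end Pool.Agent.Results.MP_1c24b6_ag.QuarticConeNotTarget
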